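import Mathlib

/-!
# Exponential IP sets of type I are not partition regular

The colouring of `ℕ` by the iterated binary logarithm modulo `3` has `c (a ^ b) ≠ c b` for all
`2 ≤ a ≤ b`. Hence for every `r ≥ 3` there is a partition of `ℕ` into `r` nonempty cells none of
which is an exponential IP set of type I.
-/

set_option autoImplicit false

namespace Pool.Agent.Results.MP_952e1b_co.TypeOneThreeCells

/-- The sets `FE^I_n(X)` for `X = {x 0 < x 1 < ...}`. -/
def FEI (x : ℕ → ℕ) : ℕ → Set ℕ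
  | 0 => {x 0}
  | n + 1 => {z | ∃ y ∈ FEI x n, z = y ^ x (n + 1)} ∪ FEI x n ∪ {x (n + 1)}

/-- `C` is an exponential IP set of type I: it contains `FE^I(X)` for some infinite
`X = {x 0 < x 1 < ...}`. -/
def ExpIPOne (C : Set ℕ) : Prop :=
  ∃ x : ℕ → ℕ, StrictMono x ∧ (⋃ n, FEI x n) ⊆ C

/-- the iterated binary logarithm -/
def L (n : ℕ) : ℕ := if h : n ≤ 1 then 0 else 1 + L (Nat.log 2 n)
termination_by n
decreasing_by exact Nat.log_lt_self 2 (by omega)

lemma L_small {n : ℕ} (h : n ≤ 1) : L n = 0 := by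
  rw [L]; simp [h]

lemma L_big {n : ℕ} (h : 2 ≤ n) : L n = 1 + L (Nat.log 2 n) := by
  rw [L]; rw [dif_neg (by omega)]

lemma L_two_pow {y : ℕ} (h : 1 ≤ y) : L (2 ^ y) = 1 + L y := by
  rw [L_big, Nat.log_pow (by norm_num)]
  calc 2 = 2 ^ 1 := by norm_num
    _ ≤ 2 ^ y := Nat.pow_le_pow_right (by norm_num) h

lemma L_mono : ∀ m n : ℕ, n ≤ m → L n ≤ L m := by
  intro m
  induction m using Nat.strong_induction_on with
  | _ m ih =>
    intro n hnm
    by_cases hn : n ≤ 1
    · rw [L_small hn]; exact Nat.zero_le _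
    · rw [L_big (show 2 ≤ n by omega), L_big (show 2 ≤ m by omega)]
      have := ih (Nat.log 2 m) (Nat.log_lt_self 2 (by omega)) (Nat.log 2 n)
        (Nat.log_mono_right hnm)
      omega

lemma mul_pred_le (y : ℕ) : (y - 1) * y ≤ 2 ^ y := by
  rcases Nat.lt_or_ge y 4 with h | h
  · interval_cases y <;> norm_num
  · have key : ∀ y : ℕ, 4 ≤ y → y * y ≤ 2 ^ y := by
      intro y hy
      induction y, hy using Nat.le_induction with
      | base => norm_num
      | succ n hn ih =>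
        rw [pow_succ]
        nlinarith
    exact (Nat.mul_le_mul_right y (Nat.sub_le y 1)).trans (key y h)

lemma pow_le_tower {a y : ℕ} (hay : a ≤ y) : a ^ y ≤ 2 ^ (2 ^ y) := by
  rcases Nat.eq_zero_or_pos y with rfl | hy
  · simp
  have h1 : y ≤ 2 ^ (y - 1) := by
    have := Nat.lt_two_pow_self (n := y - 1)
    omega
  calc a ^ y ≤ y ^ y := Nat.pow_le_pow_left hay y
    _ ≤ (2 ^ (y - 1)) ^ y := Nat.pow_le_pow_left h1 y
    _ = 2 ^ ((y - 1) * y) := by rw [← pow_mul]
    _ ≤ 2 ^ (2 ^ y) := Nat.pow_le_pow_right (by norm_num) (mul_pred_le y)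

lemma L_pow {a y : ℕ} (ha : 2 ≤ a) (hay : a ≤ y) :
    L y + 1 ≤ L (a ^ y) ∧ L (a ^ y) ≤ L y + 2 := by
  constructor
  · have h1 : 2 ^ y ≤ a ^ y := Nat.pow_le_pow_left ha y
    have h2 := L_mono _ _ h1
    rw [L_two_pow (by omega)] at h2
    omega
  · have h1 := L_mono _ _ (pow_le_tower hay)
    rw [L_two_pow Nat.one_le_two_pow, L_two_pow (by omega)] at h1
    omega

/-- the tower function `1, 2, 4, 16, ...` -/
lemma exists_L (k : ℕ) : ∀ N : ℕ, ∃ n, N ≤ n ∧ L n % 3 = k % 3 := by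
  have tower : ∀ m : ℕ, ∃ n, 1 ≤ n ∧ m ≤ n ∧ L n = m := by
    intro m
    induction m with
    | zero => exact ⟨1, le_rfl, by omega, L_small le_rfl⟩
    | succ m ih =>
      obtain ⟨n, h1, h2, h3⟩ := ih
      refine ⟨2 ^ n, Nat.one_le_two_pow, ?_, ?_⟩
      · have := Nat.lt_two_pow_self (n := n)
        omega
      · rw [L_two_pow h1, h3]; omega
  intro N
  obtain ⟨n, _, h2, h3⟩ := tower (3 * N + k)
  exact ⟨n, by omega, by rw [h3]; omega⟩

lemma mem_FEI (x : ℕ → ℕ) (n : ℕ) : x n ∈ FEI x n := by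
  cases n with
  | zero => exact rfl
  | succ n => exact Or.inr rfl

lemma mem_FEI_le (x : ℕ → ℕ) {i n : ℕ} (h : i ≤ n) : x i ∈ FEI x n := by
  induction n, h using Nat.le_induction with
  | base => exact mem_FEI x i
  | succ n hn ih => exact Or.inl (Or.inr ih)

lemma mem_FEI_pow (x : ℕ → ℕ) {i n : ℕ} (h : i ≤ n) : x i ^ x (n + 1) ∈ FEI x (n + 1) :=
  Or.inl (Or.inl ⟨x i, mem_FEI_le x h, rfl⟩)

/-- There is a 3-colouring `c` of `ℕ` with `c (a ^ b) ≠ c b` whenever `2 ≤ a ≤ b`; and for every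
`r ≥ 3` there is a partition of `ℕ` into `r` nonempty cells, none of which is an exponential IP
set of type I. -/
theorem result :
    (∃ c : ℕ → Fin 3, ∀ a b : ℕ, 2 ≤ a → a ≤ b → c (a ^ b) ≠ c b) ∧
    ∀ r : ℕ, 3 ≤ r → ∃ f : ℕ → Fin r, Function.Surjective f ∧
      ∀ i : Fin r, ¬ ExpIPOne {n | f n = i} := by
  constructor
  · refine ⟨fun n => ⟨L n % 3, Nat.mod_lt _ (by norm_num)⟩, ?_⟩
    intro a b ha hab h
    have h1 : L (a ^ b) % 3 = L b % 3 := congrArg Fin.val h
    obtain ⟨h2, h3⟩ := L_pow ha hab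
    omega
  · intro r hr
    let g : ℕ → ℕ := fun n => if n < r - 3 then 3 + n else L n % 3
    have hg : ∀ n, g n < r := by
      intro n
      simp only [g]
      split_ifs with h
      · omega
      · have := Nat.mod_lt (L n) (show 0 < 3 by norm_num)
        omega
    refine ⟨fun n => ⟨g n, hg n⟩, ?_, ?_⟩
    · intro i
      by_cases hi : (i : ℕ) < 3
      · obtain ⟨n, h1, h2⟩ := exists_L i (r - 3)
        refine ⟨n, Fin.ext ?_⟩
        simp only [g]
        rw [if_neg (by omega), h2]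
        omega
      · refine ⟨(i : ℕ) - 3, Fin.ext ?_⟩
        simp only [g]
        have := i.isLt
        rw [if_pos (by omega)]
        omega
    · rintro i ⟨x, hx, hsub⟩
      have hge : ∀ k, k ≤ x k := fun k => hx.id_le k
      have hmem : ∀ z ∈ (⋃ n, FEI x n), g z = (i : ℕ) := by
        intro z hz
        exact congrArg Fin.val (hsub hz)
      set i0 := r + 2 with hi0
      have h1 : g (x (i0 + 1)) = (i : ℕ) :=
        hmem _ (Set.mem_iUnion.mpr ⟨i0 + 1, mem_FEI x (i0 + 1)⟩)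
      have h2 : g (x i0 ^ x (i0 + 1)) = (i : ℕ) :=
        hmem _ (Set.mem_iUnion.mpr ⟨i0 + 1, mem_FEI_pow x le_rfl⟩)
      have ha : 2 ≤ x i0 := by have := hge i0; omega
      have hab : x i0 ≤ x (i0 + 1) := (hx (Nat.lt_succ_self i0)).le
      have hb : r - 3 ≤ x (i0 + 1) := by have := hge (i0 + 1); omega
      have hlt : x (i0 + 1) < x i0 ^ x (i0 + 1) := Nat.lt_pow_self (by omega)
      simp only [g] at h1 h2
      rw [if_neg (by omega)] at h1
      rw [if_neg (by omega)] at h2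
      obtain ⟨h3, h4⟩ := L_pow ha hab
      omega

end Pool.Agent.Results.MP_952e1b_co.TypeOneThreeCells
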