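import Mathlib

/-!
# Exponential IP sets of type II are partition regular

In every finite partition of `ℕ` some cell is an exponential IP set of type II; for every `q ≥ 2`
the infinite set `X` can be chosen inside the powers of `q`.

The exponents are `v = k * q ^ r`, with `k` typical for an idempotent ultrafilter and `r` in a
piecewise syndetic set; the two are combined by an IP van der Waerden theorem (Hales-Jewett).
-/

set_option autoImplicit false

attribute [local instance] Ultrafilter.add Ultrafilter.addSemigroup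

namespace Pool.Agent.Results.MP_952e1b_co.TypeTwoPartitionRegular

open Filter

/-- The sets `FE^II_n(X)` for `X = {x 0 < x 1 < ...}`. -/
def FEII (x : ℕ → ℕ) : ℕ → Set ℕ
  | 0 => {x 0}
  | n + 1 => {z | ∃ y ∈ FEII x n, z = x (n + 1) ^ y} ∪ FEII x n ∪ {x (n + 1)}

/-- piecewise syndetic sets of natural numbers -/
def Large (S : Set ℕ) : Prop :=
  ∃ K : Finset ℕ, ∀ F : Finset ℕ, ∃ n, ∀ l ∈ F, ∃ k ∈ K, n + l + k ∈ S

lemma Large.mono {S T : Set ℕ} (h : S ⊆ T) (hS : Large S) : Large T := by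
  obtain ⟨K, hK⟩ := hS
  refine ⟨K, fun F => ?_⟩
  obtain ⟨n, hn⟩ := hK F
  exact ⟨n, fun l hl => (hn l hl).imp fun k hk => ⟨hk.1, h hk.2⟩⟩

lemma large_univ : Large Set.univ :=
  ⟨{0}, fun _ => ⟨0, fun _ _ => ⟨0, by simp, trivial⟩⟩⟩

lemma not_large_empty : ¬ Large ∅ := by
  rintro ⟨K, hK⟩
  obtain ⟨n, hn⟩ := hK {0}
  obtain ⟨k, _, h⟩ := hn 0 (by simp)
  exact h

lemma Large.of_shift {S : Set ℕ} (t : ℕ) (h : Large {n | n + t ∈ S}) : Large S := by
  classical
  obtain ⟨K, hK⟩ := h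
  refine ⟨K.image (fun k => k + t), fun F => ?_⟩
  obtain ⟨n, hn⟩ := hK F
  refine ⟨n, fun l hl => ?_⟩
  obtain ⟨k, hk, hk2⟩ := hn l hl
  refine ⟨k + t, Finset.mem_image_of_mem _ hk, ?_⟩
  have : n + l + (k + t) = n + l + k + t := by ring
  rw [this]
  exact hk2

lemma Large.unbounded {S : Set ℕ} (h : Large S) (N : ℕ) : ∃ r ∈ S, N ≤ r := by
  obtain ⟨K, hK⟩ := h
  obtain ⟨n, hn⟩ := hK {N}
  obtain ⟨k, _, hk⟩ := hn N (by simp)
  exact ⟨_, hk, by omega⟩

lemma Large.union {A B : Set ℕ} (h : Large (A ∪ B)) : Large A ∨ Large B := by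
  classical
  by_contra hcon
  push Not at hcon
  obtain ⟨hA, hB⟩ := hcon
  obtain ⟨K, hK⟩ := h
  apply hB
  refine ⟨K, fun F => ?_⟩
  have h1 : ¬ ∀ M : Finset ℕ, ∃ n, ∀ m ∈ M, ∃ k ∈ (F ×ˢ K).image (fun p => p.1 + p.2),
      n + m + k ∈ A := fun h => hA ⟨_, h⟩
  push Not at h1
  obtain ⟨M, hM⟩ := h1
  obtain ⟨n, hn⟩ := hK ((M ×ˢ F).image (fun p => p.1 + p.2))
  obtain ⟨m, hm, hm2⟩ := hM n
  refine ⟨n + m, fun l hl => ?_⟩
  obtain ⟨k, hk, hk2⟩ := hn (m + l) (Finset.mem_image.mpr ⟨(m, l), by simp [hm, hl], rfl⟩)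
  refine ⟨k, hk, ?_⟩
  have h2 := hm2 (l + k) (Finset.mem_image.mpr ⟨(l, k), by simp [hl, hk], rfl⟩)
  have e1 : n + (m + l) + k = n + m + l + k := by ring
  have e2 : n + m + (l + k) = n + m + l + k := by ring
  rw [e1] at hk2
  rw [e2] at h2
  exact hk2.resolve_left h2

lemma Large.exists_finset {ι : Type*} (s : Finset ι) (S : ι → Set ℕ)
    (h : Large {n | ∃ i ∈ s, n ∈ S i}) : ∃ i ∈ s, Large (S i) := by
  classical
  induction s using Finset.induction_on with
  | empty =>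
    exact (not_large_empty (h.mono (by rintro n ⟨i, hi, _⟩; simp at hi))).elim
  | insert a s ha ih =>
    have h2 : Large (S a ∪ {n | ∃ i ∈ s, n ∈ S i}) := by
      refine h.mono ?_
      rintro n ⟨i, hi, hn⟩
      rcases Finset.mem_insert.mp hi with rfl | hi
      · exact Or.inl hn
      · exact Or.inr ⟨i, hi, hn⟩
    rcases h2.union with h3 | h3
    · exact ⟨a, Finset.mem_insert_self _ _, h3⟩
    · obtain ⟨i, hi, hi2⟩ := ih h3
      exact ⟨i, Finset.mem_insert_of_mem hi, hi2⟩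

lemma Large.exists_finite {ι : Type*} [Finite ι] (S : ι → Set ℕ)
    (h : Large {n | ∃ i, n ∈ S i}) : ∃ i, Large (S i) := by
  classical
  cases nonempty_fintype ι
  obtain ⟨i, _, hi⟩ := Large.exists_finset Finset.univ S
    (h.mono (by rintro n ⟨i, hi⟩; exact ⟨i, Finset.mem_univ _, hi⟩))
  exact ⟨i, hi⟩

/-- **IP van der Waerden** for piecewise syndetic sets. -/
lemma ip_vdw (S : Set ℕ) (hS : Large S) (a : Stream' ℕ) (F : Finset ℕ) :
    ∃ b ∈ Hindman.FS a, Large {r | r ∈ S ∧ ∀ c ∈ F, r + c * b ∈ S} := by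
  classical
  obtain ⟨K, hK⟩ := hS
  let α := {c : ℕ // c ∈ insert 0 F}
  have : Fintype α := inferInstanceAs (Fintype {c : ℕ // c ∈ insert 0 F})
  obtain ⟨ι, hι, H⟩ := Combinatorics.Line.exists_mono_in_high_dimension α {k : ℕ // k ∈ K}
  let y : ι → ℕ := fun i => a.get (Fintype.equivFin ι i : ℕ)
  let Φ : (ι → α) → ℕ := fun w => ∑ i, (w i : ℕ) * y i
  have hN0 : Large {n | ∀ w : ι → α, ∃ k ∈ K, n + Φ w + k ∈ S} := by
    refine ⟨{0}, fun G => ?_⟩
    obtain ⟨n, hn⟩ := hK ((G ×ˢ (Finset.univ : Finset (ι → α))).image (fun p => p.1 + Φ p.2))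
    refine ⟨n, fun l hl => ⟨0, by simp, fun w => ?_⟩⟩
    obtain ⟨k, hk, hk2⟩ := hn (l + Φ w) (Finset.mem_image.mpr ⟨(l, w), by simp [hl], rfl⟩)
    refine ⟨k, hk, ?_⟩
    have : n + l + 0 + Φ w + k = n + (l + Φ w) + k := by ring
    rw [this]
    exact hk2
  have h1 : Large {n | ∃ p : {k : ℕ // k ∈ K} × (ι → Option α), n ∈
      ({n | (∃ i, p.2 i = none) ∧ ∀ x : α, n + Φ (fun i => (p.2 i).getD x) + (p.1 : ℕ) ∈ S} :
        Set ℕ)} := by
    refine hN0.mono ?_
    intro n hn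
    choose C hC1 hC2 using hn
    obtain ⟨l, c, hl⟩ := H (fun w => (⟨C w, hC1 w⟩ : {k : ℕ // k ∈ K}))
    refine ⟨(c, l.idxFun), l.proper, fun x => ?_⟩
    have h2 := hl x
    have h3 : C (l x) = (c : ℕ) := congrArg Subtype.val h2
    have h4 := hC2 (l x)
    rw [h3] at h4
    exact h4
  obtain ⟨⟨k, idx⟩, hp⟩ := h1.exists_finite
  have hne : ∃ i, idx i = none := by
    obtain ⟨r, hr, _⟩ := hp.unbounded 0
    exact hr.1
  obtain ⟨i0, hi0⟩ := hne
  let act : Finset ι := Finset.univ.filter (fun i => idx i = none)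
  let b : ℕ := ∑ i ∈ act, y i
  have hb : b ∈ Hindman.FS a := by
    have h2 := Hindman.FS.finsetSum a
      (act.image (fun i => (Fintype.equivFin ι i : ℕ)))
      (Finset.Nonempty.image ⟨i0, by simp [act, hi0]⟩ _)
    rw [Finset.sum_image] at h2
    · exact h2
    · intro i _ j _ hij
      exact (Fintype.equivFin ι).injective (Fin.ext hij)
  refine ⟨b, hb, ?_⟩
  let z : α := ⟨0, by simp⟩
  have hΦ : ∀ x : α, Φ (fun i => (idx i).getD x) =
      Φ (fun i => (idx i).getD z) + (x : ℕ) * b := by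
    intro x
    simp only [Φ, b, Finset.mul_sum]
    rw [Finset.sum_filter, ← Finset.sum_add_distrib]
    apply Finset.sum_congr rfl
    intro i _
    cases h : idx i with
    | none => simp [z]
    | some c => simp
  apply Large.of_shift (k + Φ (fun i => (idx i).getD z))
  refine hp.mono ?_
  rintro n ⟨_, hn⟩
  have key : ∀ x : α, n + ((k : ℕ) + Φ (fun i => (idx i).getD z)) + (x : ℕ) * b ∈ S := by
    intro x
    have h2 := hn x
    simp only at h2
    rw [hΦ x] at h2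
    have : n + ((k : ℕ) + Φ (fun i => (idx i).getD z)) + (x : ℕ) * b =
      n + (Φ (fun i => (idx i).getD z) + (x : ℕ) * b) + (k : ℕ) := by ring
    rw [this]
    exact h2
  refine ⟨?_, fun c hc => ?_⟩
  · have := key z
    simpa [z] using this
  · exact key ⟨c, Finset.mem_insert_of_mem hc⟩

lemma FS_pos (a : Stream' ℕ) (m : ℕ) (h : m ∈ Hindman.FS a) :
    (∀ n, 1 ≤ a.get n) → 1 ≤ m := by
  induction h with
  | head' a => intro ha; exact ha 0
  | tail' a m h ih => intro ha; exact ih (fun n => ha (n + 1))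
  | cons' a m h ih =>
    intro ha
    have h1 : 1 ≤ a.head := ha 0
    have h2 := ih (fun n => ha (n + 1))
    omega

lemma exists_idempotent : ∃ E : Ultrafilter ℕ, E + E = E ∧ ∀ᶠ k in (E : Filter ℕ), 1 ≤ k := by
  obtain ⟨E, h1, h2⟩ := Hindman.exists_idempotent_ultrafilter_le_FS (Stream'.const 1 : Stream' ℕ)
  exact ⟨E, h1, h2.mono (fun m hm => FS_pos _ m hm (fun n => le_rfl))⟩

lemma exists_limit {κ : Type*} [Finite κ] (E : Ultrafilter ℕ) (g : ℕ → κ) :
    ∃ i, ∀ᶠ k in (E : Filter ℕ), g k = i := by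
  obtain ⟨i, hi⟩ := Ultrafilter.eq_pure_of_finite (E.map g)
  refine ⟨i, ?_⟩
  have h1 : ({i} : Set κ) ∈ (E.map g : Ultrafilter κ) := by
    rw [hi]
    exact Ultrafilter.mem_pure.mpr rfl
  exact h1

/-- the state of the construction: a finite set `W` of exponents -/
def Good {κ : Type*} (g : ℕ → κ) (c : κ) (A : Set ℕ) (W : Finset ℕ) : Prop :=
  (∀ w ∈ W, g w = c) ∧ Large {r | r ∈ A ∧ ∀ w ∈ W, r + w ∈ A}

lemma step {κ : Type*} (q : ℕ) (hq : 2 ≤ q) (g : ℕ → κ) (χ : ℕ → κ)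
    (E : Ultrafilter ℕ) (hE : E + E = E) (hE1 : ∀ᶠ k in (E : Filter ℕ), 1 ≤ k)
    (hχ : ∀ r, ∀ᶠ k in (E : Filter ℕ), g (k * q ^ r) = χ r) (c : κ) (W : Finset ℕ)
    (hW : Good g c {r | χ r = c} W) (N : ℕ) :
    ∃ v : ℕ, N < v ∧ Good g c {r | χ r = c} (insert v (W ∪ W.image (fun w => v * q ^ w))) := by
  classical
  obtain ⟨hW1, hW2⟩ := hW
  obtain ⟨r, ⟨hr1, hr2⟩, hrN⟩ := hW2.unbounded N
  set F : Finset ℕ := insert r (W.image (fun w => r + w)) with hF
  have hFχ : ∀ m ∈ F, χ m = c := by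
    intro m hm
    rw [hF, Finset.mem_insert, Finset.mem_image] at hm
    rcases hm with rfl | ⟨w, hw, rfl⟩
    · exact hr1
    · exact hr2 w hw
  have h1 : {k | 1 ≤ k ∧ ∀ m ∈ F, g (k * q ^ m) = c} ∈ E := by
    have h2 : ∀ᶠ k in (E : Filter ℕ), ∀ m ∈ F, g (k * q ^ m) = c := by
      rw [Filter.eventually_all_finset]
      intro m hm
      have := hχ m
      rw [hFχ m hm] at this
      exact this
    exact hE1.and h2
  obtain ⟨a, ha⟩ := Hindman.exists_FS_of_large E hE _ h1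
  obtain ⟨k, hk, hlarge⟩ := ip_vdw _ hW2 a (F.image (fun m => q ^ m))
  obtain ⟨hk1, hk2⟩ := ha hk
  refine ⟨k * q ^ r, ?_, ?_, ?_⟩
  · have h3 : r < q ^ r := Nat.lt_pow_self (by omega)
    nlinarith
  · intro w hw
    rw [Finset.mem_insert, Finset.mem_union, Finset.mem_image] at hw
    rcases hw with rfl | hw | ⟨w', hw', rfl⟩
    · exact hk2 r (Finset.mem_insert_self _ _)
    · exact hW1 w hw
    · rw [mul_assoc, ← pow_add]
      exact hk2 (r + w') (Finset.mem_insert_of_mem (Finset.mem_image_of_mem _ hw'))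
  · refine hlarge.mono ?_
    rintro s ⟨⟨hs1, hs2⟩, hs3⟩
    have hs4 : ∀ m ∈ F, χ (s + k * q ^ m) = c := by
      intro m hm
      have := (hs3 (q ^ m) (Finset.mem_image_of_mem _ hm)).1
      rw [mul_comm k]
      exact this
    refine ⟨hs1, fun w hw => ?_⟩
    rw [Finset.mem_insert, Finset.mem_union, Finset.mem_image] at hw
    rcases hw with rfl | hw | ⟨w', hw', rfl⟩
    · exact hs4 r (Finset.mem_insert_self _ _)
    · exact hs2 w hw
    · show χ _ = c
      rw [mul_assoc, ← pow_add]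
      exact hs4 (r + w') (Finset.mem_insert_of_mem (Finset.mem_image_of_mem _ hw'))

/-- **Exponential IP sets of type II are partition regular**, with `X` inside the powers of any
given `q ≥ 2`. -/
theorem result {κ : Type} [Finite κ] (f : ℕ → κ) (q : ℕ) (hq : 2 ≤ q) :
    ∃ i : κ, ∃ x : ℕ → ℕ, StrictMono x ∧ (∀ n, ∃ v, x n = q ^ v) ∧
      (⋃ n, FEII x n) ⊆ {n | f n = i} := by
  classical
  obtain ⟨E, hE, hE1⟩ := exists_idempotent
  let g : ℕ → κ := fun v => f (q ^ v)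
  have h1 : ∀ r, ∃ i, ∀ᶠ k in (E : Filter ℕ), g (k * q ^ r) = i :=
    fun r => exists_limit E (fun k => g (k * q ^ r))
  choose χ hχ using h1
  obtain ⟨c, hc⟩ := Large.exists_finite (fun c : κ => {r | χ r = c})
    (large_univ.mono (fun r _ => ⟨χ r, rfl⟩))
  let St := {W : Finset ℕ // Good g c {r | χ r = c} W}
  have hstep : ∀ (s : St) (N : ℕ), ∃ v : ℕ, N < v ∧ Good g c {r | χ r = c}
      (insert v (s.1 ∪ s.1.image (fun w => v * q ^ w))) :=
    fun s N => step q hq g χ E hE hE1 hχ c s.1 s.2 N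
  choose nx hnx1 hnx2 using hstep
  have h0 : Good g c {r | χ r = c} ∅ :=
    ⟨by simp, hc.mono (fun r hr => ⟨hr, by simp⟩)⟩
  -- the sequence of pairs (state, last exponent)
  let adv : St × ℕ → St × ℕ := fun p =>
    (⟨insert (nx p.1 p.2) (p.1.1 ∪ p.1.1.image (fun w => nx p.1 p.2 * q ^ w)), hnx2 p.1 p.2⟩,
      nx p.1 p.2)
  let sq : ℕ → St × ℕ := fun n => Nat.rec (adv (⟨∅, h0⟩, 0)) (fun _ p => adv p) n
  have hsq : ∀ n, sq (n + 1) = adv (sq n) := fun n => rfl
  let v : ℕ → ℕ := fun n => (sq n).2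
  have hvmono : StrictMono v := by
    apply strictMono_nat_of_lt_succ
    intro n
    show (sq n).2 < (sq (n + 1)).2
    rw [hsq]
    exact hnx1 (sq n).1 (sq n).2
  have hvmem : ∀ n, v n ∈ (sq n).1.1 := by
    intro n
    cases n with
    | zero => exact Finset.mem_insert_self _ _
    | succ n =>
      show (sq (n + 1)).2 ∈ (sq (n + 1)).1.1
      rw [hsq]
      exact Finset.mem_insert_self _ _
  have hsub : ∀ n, ∀ w ∈ (sq n).1.1, w ∈ (sq (n + 1)).1.1 := by
    intro n w hw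
    rw [hsq]
    exact Finset.mem_insert_of_mem (Finset.mem_union_left _ hw)
  have hpow : ∀ n, ∀ w ∈ (sq n).1.1, v (n + 1) * q ^ w ∈ (sq (n + 1)).1.1 := by
    intro n w hw
    show (sq (n + 1)).2 * q ^ w ∈ (sq (n + 1)).1.1
    rw [hsq]
    exact Finset.mem_insert_of_mem (Finset.mem_union_right _ (Finset.mem_image_of_mem _ hw))
  have hFE : ∀ n, ∀ z ∈ FEII (fun n => q ^ v n) n, ∃ w ∈ (sq n).1.1, z = q ^ w := by
    intro n
    induction n with
    | zero =>
      intro z hz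
      exact ⟨v 0, hvmem 0, hz⟩
    | succ n ih =>
      rintro z ((⟨y, hy, rfl⟩ | hz) | hz)
      · obtain ⟨w, hw, rfl⟩ := ih y hy
        exact ⟨_, hpow n w hw, by rw [← pow_mul]⟩
      · obtain ⟨w, hw, rfl⟩ := ih z hz
        exact ⟨w, hsub n w hw, rfl⟩
      · exact ⟨v (n + 1), hvmem (n + 1), hz⟩
  refine ⟨c, fun n => q ^ v n, fun m n hmn => Nat.pow_lt_pow_right (by omega) (hvmono hmn),
    fun n => ⟨v n, rfl⟩, ?_⟩
  intro z hz
  obtain ⟨n, hn⟩ := Set.mem_iUnion.mp hz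
  obtain ⟨w, hw, rfl⟩ := hFE n z hn
  exact (sq n).1.2.1 w hw

end Pool.Agent.Results.MP_952e1b_co.TypeTwoPartitionRegular
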